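import Mathlib

set_option autoImplicit false

/-!
# Project WN: the weighted form of Kozma's question (MP_8ede36_co)

THEOREM. There is a connected graph with all degrees at most 100 and edge lengths between 1 and 42
whose path metric is roughly isometric to the Euclidean plane with multiplicative constant 1.

Four copies (rotated by multiples of 45 degrees) of a sector network: nodes `(k, i)` at `k + (k/2 + i) I`,
steps `(k, i) → (k+1, i)` of length `1 + (a k)⁺` and `(k, i) → (k+1, i-1)` of length `1 + (a k)⁻`, where the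
thresholds `a k` are `± sl (x/2)`, `± sl ((1-x)/2)` for the van der Corput numbers `x`. All nodes at distance
at most 2 are joined, by edges of length 42 if they are not steps.
-/

noncomputable section

namespace Pool.Agent.L7h49.WN

/-- the sine of the angle with slope `t` -/
def sl (t : ℝ) : ℝ := t / √(1 + t ^ 2)

def F (w v : ℝ) : ℝ := min (sl (v / 2)) w

def J (w : ℝ) : ℝ := ∫ v in (0 : ℝ)..1, F w v

/-- The van der Corput sequence in base 2. -/
def vdc : ℕ → ℝ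
  | 0 => 0
  | n + 1 => (vdc ((n + 1) / 2) + (((n + 1) % 2 : ℕ) : ℝ)) / 2
decreasing_by omega

/-- PART INT (100 lines). `s = sl` has the antiderivative `√(1 + t²)`; `F w v = sl (v/2)` for
`v ≤ 2p`, where `w = sl p`, `p = w / √(1 - w²)` (`p ≤ 1/2` iff `w ≤ 1/√5`), and `= w` beyond. So for
`w ≤ 1/√5`: `J w = 2 (√(1+p²) - 1) + w (1 - 2p) = 2 √(1-w²) + w - 2`. For `w ≥ 1/√5`: `J w = √5 - 2` and
`2 √(1-w²) + w ≤ √5` (Cauchy-Schwarz). `0 ≤ F w v ≤ w`. -/
def S_INT : Prop :=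
  (∀ w : ℝ, 0 ≤ w → w ≤ 1 / √5 → J w = 2 * √(1 - w ^ 2) + w - 2) ∧
  ∀ w : ℝ, 0 ≤ w → w ≤ 1 → 2 * √(1 - w ^ 2) + w - 2 ≤ J w ∧ J w ≤ w ∧ 0 ≤ J w

/-- PART SUM (150 lines). `F w` is concave and monotone on `[0, 1]`, Lipschitz with constant `1/2`.
For a cell `[i/N, (i+1)/N]` and `0 ≤ x ≤ 1` both `F((i+x)/N) + F((i+1-x)/N)` and `2N ∫_cell F` are between
`F(i/N) + F((i+1)/N)` and `2 F((i+1/2)/N)` (concavity), and the sum over `i < N` of the differences
`2 F((i+1/2)/N) - F(i/N) - F((i+1)/N) = (F((i+1/2)/N) - F(i/N)) - (F((i+1)/N) - F((i+1/2)/N))` is at most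
`1/(4N)` (the increments over half cells decrease from at most `1/(4N)` to at least `0`; telescope). So for
`P x = F w x + F w (1-x) - 2 J w`: `|∑_{i<N} P((x+i)/N)| ≤ 1/(4N)` (reindex `i → N-1-i` in the second
part). `vdc (2n) = vdc n / 2`, `vdc (2n+1) = (vdc n + 1)/2`, so
`∑_{j<2n} P(vdc j) = ∑_{j<n} (TP)(vdc j)`, `TP x = P(x/2) + P((x+1)/2)`, `T^m P x = ∑_{i<2^m} P((x+i)/2^m)`;
by induction `|∑_{j<n} P(vdc j)| ≤ ∑_m sup |T^m P| ≤ ∑_m 1/(4 · 2^m) ≤ 1/2`. -/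
def S_SUM : Prop :=
  (∀ n, 0 ≤ vdc n ∧ vdc n < 1) ∧
  ∀ w : ℝ, 0 ≤ w → w ≤ 1 → ∀ n : ℕ,
    |∑ j ∈ Finset.range n, (F w (vdc j) + F w (1 - vdc j) - 2 * J w)| ≤ 1

/-- The thresholds of the columns `k ≥ 0`. -/
def aN (k : ℕ) : ℝ :=
  if k % 4 = 0 then sl (vdc (k / 4) / 2) else if k % 4 = 1 then -sl (vdc (k / 4) / 2)
  else if k % 4 = 2 then sl ((1 - vdc (k / 4)) / 2) else -sl ((1 - vdc (k / 4)) / 2)

/-- The thresholds of the columns. -/
def a (k : ℤ) : ℝ := if 0 ≤ k then aN k.toNat else aN (-k - 1).toNat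

def mu (u c : ℝ) : ℝ := 1 + max c 0 - max (c - u) 0

def Ubar (u : ℝ) : ℝ := (J |u| + 2 - |u| - 2 * √(1 - u ^ 2)) / 2

/-- PART COL (100 lines; uses S_SUM, S_INT). For `r ≥ 0`: `mu u r + mu u (-r) = 2 + min r |u| + (u - |u|)`,
so four consecutive terms (`k = 4j, .., 4j+3`) add up to `F |u| x + F |u| (1-x) - 2 J |u|`, `x = vdc j`. At
most three terms remain, each at most `5` in absolute value (`0 ≤ Ubar u ≤ 1` by S_INT). -/
def S_COL : Prop :=
  ∀ u : ℝ, |u| ≤ 1 → ∀ n : ℕ,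
    |∑ k ∈ Finset.range n, (mu u (aN k) - Ubar u - √(1 - u ^ 2) - u / 2)| ≤ 20

/-- PART POT (100 lines; uses S_COL, S_INT). `H k = ∑_{j<k} inc (aN j)` for `k ≥ 0` and
`H k = -∑_{j < -k} inc (aN j)` for `k < 0`, `inc c = mu u c - Ubar u`; so `H (k+1) - H k = inc (a k)`.
`0 ≤ Ubar u ≤ 1 - √(1-u²) ≤ 1`, and `Ubar u = 0` for `|u| ≤ 1/√5`; `mu u c ≤ 1 + c⁺`,
`mu u c - u ≤ 1 + c⁻`, `mu u c ≥ min 1 (1+u)`, `mu u c - u ≥ min (1 - u) 1`; equality in the first for
`c ≤ u`, in the second for `u ≤ c`. (`|a k| ≤ 1/√5` is also proved here: `0 ≤ sl (x/2) ≤ sl (1/2)`.) -/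
def S_POT : Prop :=
  (∀ k, |a k| ≤ 1 / √5) ∧
  ∀ u : ℝ, |u| ≤ 1 → ∃ H : ℤ → ℝ, (∀ k : ℤ, |H k - k * (√(1 - u ^ 2) + u / 2)| ≤ 20) ∧
    (∀ k, H (k + 1) - H k ≤ 1 + max (a k) 0) ∧ (∀ k, H (k + 1) - H k - u ≤ 1 + max (-a k) 0) ∧
    (∀ k, -1 ≤ H (k + 1) - H k) ∧ (∀ k, -1 ≤ H (k + 1) - H k - u) ∧
    (|u| ≤ 1 / √5 → ∀ k, (a k ≤ u → H (k + 1) - H k = 1 + max (a k) 0) ∧
      (u ≤ a k → H (k + 1) - H k - u = 1 + max (-a k) 0))

/-- The vertices: the copy, the column `k`, the row `i`. -/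
abbrev V : Type := Fin 4 × ℤ × ℤ

/-- The rotation by 45 degrees. -/
def zeta : ℂ := (1 + Complex.I) / (√2 : ℝ)

def pos (v : V) : ℂ :=
  zeta ^ (v.1 : ℕ) * ((v.2.1 : ℂ) + ((v.2.1 : ℂ) / 2 + (v.2.2 : ℂ)) * Complex.I)

/-- All pairs of vertices at distance at most 2 are adjacent. -/
def G : SimpleGraph V where
  Adj u v := u ≠ v ∧ ‖pos u - pos v‖ ≤ 2
  symm := ⟨fun u v h => ⟨h.1.symm, by rw [norm_sub_rev]; exact h.2⟩⟩
  loopless := ⟨fun u h => h.1 rfl⟩

open Classical in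
/-- The lengths of the edges. -/
def om (u v : V) : ℝ :=
  if u.1 = v.1 ∧ v.2.1 = u.2.1 + 1 ∧ v.2.2 = u.2.2 then 1 + max (a u.2.1) 0
  else if u.1 = v.1 ∧ u.2.1 = v.2.1 + 1 ∧ u.2.2 = v.2.2 then 1 + max (a v.2.1) 0
  else if u.1 = v.1 ∧ v.2.1 = u.2.1 + 1 ∧ v.2.2 = u.2.2 - 1 then 1 + max (-a u.2.1) 0
  else if u.1 = v.1 ∧ u.2.1 = v.2.1 + 1 ∧ u.2.2 = v.2.2 - 1 then 1 + max (-a v.2.1) 0
  else 42

/-- The length of a walk. -/
def wt {x y : V} (p : G.Walk x y) : ℝ := (p.darts.map fun d => om d.fst d.snd).sum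

/-- PART OM (40 lines; uses S_POT). The lengths are symmetric and between 1 and 42. -/
def S_OM : Prop := ∀ u v, om u v = om v u ∧ 1 ≤ om u v ∧ om u v ≤ 42

/-- PART LIP (120 lines; uses S_POT). Potentials for all directions `e`. Proof: on the copy `s` let
`e' = conj zeta ^ s * e`, so `(pos v * conj e).re = k c + (k/2 + i) u` with `c = e'.re`, `u = e'.im`. If
`c ≥ 0` then `c = √(1-u²)` and `h = H k + i u` (H of S_POT for `u`); if `c < 0` then `h = -(H k + i u')` with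
`u' = -u`. Steps: S_POT (both orientations; `-1 ≤ ..` and lengths `≥ 1`). Other edges have length `42` and
`|h u - h v| ≤ ‖pos u - pos v‖ + 40`. -/
def S_LIP : Prop :=
  ∀ e : ℂ, ‖e‖ = 1 → ∃ h : V → ℝ, (∀ v, |h v - (pos v * (starRingEnd ℂ) e).re| ≤ 20) ∧
    ∀ u v, G.Adj u v → h u - h v ≤ om u v

/-- PART TIG (180 lines; uses S_POT). In one copy there is a walk with `m` steps of the second kind
among `n` steps, of almost minimal length. Proof: there are `T ⊆ {k, .., k+n-1}` with `m` elements and `u`,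
`|u| ≤ 1/√5`, with `u ≤ a j` for `j ∈ T` and `a j ≤ u` for the others (for `n ≥ 1` take `T` with the largest
sum of the `a j`, `u = min_T a`, or `u = 1/√5` if `T = ∅`). Steps of the second kind in the columns of `T`. By the
equalities of S_POT the length is `h(end) - h(start)`, `h = H k + i u`, which is within `40` of the inner
product of the displacement (in the copy) with the unit vector `(√(1-u²), u)`. The steps are edges:
`‖1 ± I/2‖ ≤ 2`. -/
def S_TIG : Prop :=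
  ∀ (s : Fin 4) (k i : ℤ) (n m : ℕ), m ≤ n →
    ∃ p : G.Walk (s, k, i) (s, k + n, i - m),
      wt p ≤ ‖pos (s, k + n, i - m) - pos (s, k, i)‖ + 40

/-- PART NET (30 lines). `k = round`, `i = round`: distance at most `√(1/2) ≤ 3/4`. -/
def S_NET : Prop := ∀ (z : ℂ) (s : Fin 4), ∃ k i : ℤ, ‖pos (s, k, i) - z‖ ≤ 3 / 4

/-- PART DEG (90 lines). At most 25 vertices of each copy have distance at most 2 from a given point: at
most 5 values of `k` and for each at most 5 of `i`. -/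
def S_DEG : Prop := ∀ v, (G.neighborSet v).Finite ∧ (G.neighborSet v).ncard ≤ 100

/-- PART SHO (90 lines; uses S_NET, S_OM). Short walks: vertices (of the copy of `x`) near points of the
segment at steps `≤ 1/2`; consecutive ones have distance at most 2. At most `2 ‖pos x - pos y‖ + 3` edges. -/
def S_SHO : Prop := ∀ x y : V, ∃ p : G.Walk x y, wt p ≤ 42 * (2 * ‖pos x - pos y‖ + 3)

/-- PART UPP (140 lines; uses S_TIG, S_NET, S_SHO, S_OM). If `‖pos x - pos y‖ ≤ 100`: S_SHO. Otherwise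
there are a copy `s` and a sign with `d = ± conj zeta ^ s * (pos y - pos x)`, `|d.im| ≤ (5/12) d.re`
(the angle of `d` is at most 22.5 degrees for a suitable choice); vertices `x'`, `y'` of the copy `s` near `x`, `y`
(S_NET); the displacement of `x'`, `y'` in the copy is `(n, n/2 - m)` with `0 ≤ m ≤ n`; S_TIG, and two edges of
length `≤ 42` (reverse the walk if the sign is `-`). -/
def S_UPP : Prop := ∀ x y : V, ∃ p : G.Walk x y, wt p ≤ ‖pos x - pos y‖ + 9000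

end Pool.Agent.L7h49.WN
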