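import Pool.Agent.L7h49.WN.Def

set_option autoImplicit false

namespace Pool.Agent.L7h49.WN

theorem wn_final2 (hO : S_OM) (hL : S_LIP) (hN : S_NET) (hD : S_DEG) (hU : S_UPP) :
    ∃ (V : Type) (G : SimpleGraph V) (ℓ : V → V → ℝ) (f : V → ℂ),
      (∀ v, (G.neighborSet v).Finite ∧ (G.neighborSet v).ncard ≤ 100) ∧
      (∀ u v, G.Adj u v → ‖f u - f v‖ ≤ 2) ∧
      (∀ u v, ℓ u v = ℓ v u ∧ 1 ≤ ℓ u v ∧ ℓ u v ≤ 42) ∧
      (∀ (x y : V) (p : G.Walk x y), ‖f x - f y‖ - 40 ≤ (p.darts.map fun d => ℓ d.fst d.snd).sum) ∧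
      (∀ x y : V, ∃ p : G.Walk x y, (p.darts.map fun d => ℓ d.fst d.snd).sum ≤ ‖f x - f y‖ + 9000) ∧
      ∀ z : ℂ, ∃ v, ‖f v - z‖ ≤ 3 / 4 := by
  refine ⟨V, G, om, pos, hD, fun u v h => h.2, hO, ?_, hU, ?_⟩
  · intro x y p
    by_cases hxy : pos x - pos y = 0
    · have h0 : 0 ≤ (p.darts.map fun d => om d.fst d.snd).sum := by
        apply List.sum_nonneg
        intro a ha
        obtain ⟨d, _, rfl⟩ := List.mem_map.1 ha
        linarith [(hO d.fst d.snd).2.1]
      rw [hxy, norm_zero]; linarith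
    have hn : 0 < ‖pos x - pos y‖ := norm_pos_iff.2 hxy
    obtain ⟨h, h1, h2⟩ := hL ((pos x - pos y) / (‖pos x - pos y‖ : ℂ)) (by
      rw [norm_div, Complex.norm_real, norm_norm, div_self hn.ne'])
    have key : ∀ (a b : V) (q : G.Walk a b), h a - h b ≤ (q.darts.map fun d => om d.fst d.snd).sum := by
      intro a b q
      induction q with
      | nil => simp
      | cons hadj q ih =>
        rw [SimpleGraph.Walk.darts_cons, List.map_cons, List.sum_cons]
        have := h2 _ _ hadj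
        simp only at *
        linarith
    have h3 := key x y p
    have e1 : (pos x * (starRingEnd ℂ) ((pos x - pos y) / (‖pos x - pos y‖ : ℂ))).re -
        (pos y * (starRingEnd ℂ) ((pos x - pos y) / (‖pos x - pos y‖ : ℂ))).re = ‖pos x - pos y‖ := by
      rw [← Complex.sub_re, ← sub_mul, map_div₀, Complex.conj_ofReal, ← mul_div_assoc, Complex.mul_conj,
        Complex.normSq_eq_norm_sq]
      rw [← Complex.ofReal_div, Complex.ofReal_re, pow_two, mul_div_assoc, div_self hn.ne', mul_one]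
    have a1 := abs_le.1 (h1 x)
    have a2 := abs_le.1 (h1 y)
    linarith [a1.1, a1.2, a2.1, a2.2]
  · intro z
    obtain ⟨k, i, h⟩ := hN z 0
    exact ⟨(0, k, i), h⟩

end Pool.Agent.L7h49.WN
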