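import Pool.Agent.L7h49.WN.Def

set_option autoImplicit false

namespace Pool.Agent.L7h49.WN

/-- thresholds -/
theorem tig_thr (b : ℕ → ℝ) (R : ℝ) (hb : ∀ j, |b j| ≤ R) (n : ℕ) :
    ∀ m, m ≤ n → ∃ T : Finset ℕ, T ⊆ Finset.range n ∧ T.card = m ∧ ∃ u : ℝ, |u| ≤ R ∧
      (∀ j ∈ T, u ≤ b j) ∧ ∀ j ∈ Finset.range n, j ∉ T → b j ≤ u := by
  intro m
  induction m with
  | zero =>
    intro _
    have hR : 0 ≤ R := (abs_nonneg _).trans (hb 0)
    refine ⟨∅, by simp, by simp, R, by rw [abs_of_nonneg hR], by simp, ?_⟩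
    intro j _ _
    exact (abs_le.1 (hb j)).2
  | succ m ih =>
    intro hm
    obtain ⟨T, hT, hc, u, _, h1, h2⟩ := ih (by omega)
    have hne : (Finset.range n \ T).Nonempty := by
      rw [← Finset.card_pos, Finset.card_sdiff_of_subset hT, Finset.card_range]
      omega
    obtain ⟨j, hj, hmax⟩ := Finset.exists_max_image _ b hne
    rw [Finset.mem_sdiff] at hj
    refine ⟨insert j T, ?_, ?_, b j, hb j, ?_, ?_⟩
    · intro x hx
      rcases Finset.mem_insert.1 hx with rfl | hx
      · exact hj.1
      · exact hT hx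
    · rw [Finset.card_insert_of_notMem hj.2, hc]
    · intro x hx
      rcases Finset.mem_insert.1 hx with rfl | hx
      · exact le_rfl
      · exact (h2 j hj.1 hj.2).trans (h1 x hx)
    · intro x hx hxT
      apply hmax
      rw [Finset.mem_sdiff]
      exact ⟨hx, fun h => hxT (Finset.mem_insert_of_mem h)⟩

theorem zeta_norm : ‖zeta‖ = 1 := by
  unfold zeta
  rw [norm_div, Complex.norm_real, Real.norm_of_nonneg (Real.sqrt_nonneg _)]
  have : ‖(1 : ℂ) + Complex.I‖ = √2 := by
    rw [Complex.norm_def, Complex.normSq_apply]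
    norm_num
  rw [this, div_self]
  positivity

theorem pos_sub (s : Fin 4) (k i k' i' : ℤ) :
    ‖pos (s, k', i') - pos (s, k, i)‖ =
      ‖(((k' - k : ℤ) : ℝ) : ℂ) + ((((k' - k : ℤ) : ℝ) / 2 + ((i' - i : ℤ) : ℝ) : ℝ) : ℂ) * Complex.I‖ := by
  unfold pos
  simp only
  rw [← mul_sub, norm_mul, norm_pow, zeta_norm, one_pow, one_mul]
  congr 1
  push_cast
  ring

theorem re_im_le (x y c u : ℝ) (h : c ^ 2 + u ^ 2 = 1) :
    x * c + y * u ≤ ‖(x : ℂ) + (y : ℂ) * Complex.I‖ := by
  have h1 : ‖(x : ℂ) + (y : ℂ) * Complex.I‖ = √(x ^ 2 + y ^ 2) := by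
    rw [Complex.norm_def, Complex.normSq_apply]
    simp
    ring_nf
  rw [h1]
  apply Real.le_sqrt_of_sq_le
  nlinarith [sq_nonneg (x * u - y * c)]

theorem wt_append {x y z : V} (p : G.Walk x y) (q : G.Walk y z) :
    wt (p.append q) = wt p + wt q := by
  unfold wt
  rw [SimpleGraph.Walk.darts_append, List.map_append, List.sum_append]

theorem adj1 (s : Fin 4) (k i : ℤ) : G.Adj (s, k, i) (s, k + 1, i) := by
  refine ⟨?_, ?_⟩
  · intro h
    have := congrArg (fun v : V => v.2.1) h
    simp at this
  · rw [norm_sub_rev, pos_sub]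
    have : ‖((((k + 1 - k : ℤ) : ℝ)) : ℂ) + ((((k + 1 - k : ℤ) : ℝ) / 2 + ((i - i : ℤ) : ℝ) : ℝ) : ℂ) * Complex.I‖
        = √(5 / 4) := by
      rw [Complex.norm_def, Complex.normSq_apply]
      simp
      norm_num
    rw [this]
    rw [Real.sqrt_le_left (by norm_num)]
    norm_num

theorem adj2 (s : Fin 4) (k i : ℤ) : G.Adj (s, k, i) (s, k + 1, i - 1) := by
  refine ⟨?_, ?_⟩
  · intro h
    have := congrArg (fun v : V => v.2.1) h
    simp at this
  · rw [norm_sub_rev, pos_sub]
    have : ‖((((k + 1 - k : ℤ) : ℝ)) : ℂ) + ((((k + 1 - k : ℤ) : ℝ) / 2 + ((i - 1 - i : ℤ) : ℝ) : ℝ) : ℂ) * Complex.I‖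
        = √(5 / 4) := by
      rw [Complex.norm_def, Complex.normSq_apply]
      simp
      norm_num
    rw [this]
    rw [Real.sqrt_le_left (by norm_num)]
    norm_num

theorem om1 (s : Fin 4) (k i : ℤ) : om (s, k, i) (s, k + 1, i) = 1 + max (a k) 0 := by
  unfold om
  simp

theorem om2 (s : Fin 4) (k i : ℤ) : om (s, k, i) (s, k + 1, i - 1) = 1 + max (-a k) 0 := by
  unfold om
  rw [if_neg (by simp), if_neg (by simp; omega), if_pos (by simp)]

theorem s_TIG (hP : S_POT) : S_TIG := by
  intro s k i n m hmn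
  obtain ⟨hA, hP⟩ := hP
  obtain ⟨T, hT, hc, u, hu, h1, h2⟩ := tig_thr (fun j => a (k + j)) (1 / √5) (fun j => hA _) n m hmn
  have hu1 : |u| ≤ 1 := hu.trans (by
    rw [div_le_one (by positivity)]
    rw [Real.one_le_sqrt]
    norm_num)
  obtain ⟨H, hH, _, _, _, _, hE⟩ := hP u hu1
  have hE := hE hu
  have key : ∀ n', n' ≤ n → ∃ p : G.Walk (s, k, i) (s, k + n', i - ((T.filter (· < n')).card : ℕ)),
      wt p = H (k + n') - H k - u * ((T.filter (· < n')).card : ℕ) := by
    intro n'
    induction n' with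
    | zero =>
      intro _
      have e0 : (T.filter (· < 0)).card = 0 := by simp
      rw [e0]
      have e1 : (s, k, i) = ((s, k + ((0 : ℕ) : ℤ), i - ((0 : ℕ) : ℤ)) : V) := by simp
      refine ⟨(SimpleGraph.Walk.nil : G.Walk (s, k, i) (s, k, i)).copy rfl e1, ?_⟩
      unfold wt
      rw [SimpleGraph.Walk.darts_copy]
      simp
    | succ n' ih =>
      intro hn'
      obtain ⟨p, hp⟩ := ih (by omega)
      by_cases hmem : n' ∈ T
      · have e0 : (T.filter (· < n' + 1)).card = (T.filter (· < n')).card + 1 := by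
          have : T.filter (· < n' + 1) = insert n' (T.filter (· < n')) := by
            ext x
            simp only [Finset.mem_filter, Finset.mem_insert]
            constructor
            · rintro ⟨hx, hx'⟩
              rcases Nat.lt_succ_iff_lt_or_eq.1 hx' with h | h
              · exact Or.inr ⟨hx, h⟩
              · exact Or.inl h
            · rintro (rfl | ⟨hx, hx'⟩)
              · exact ⟨hmem, by omega⟩
              · exact ⟨hx, by omega⟩
          rw [this, Finset.card_insert_of_notMem (by simp)]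
        have ev : ((s, k + n' + 1, i - ((T.filter (· < n')).card : ℕ) - 1) : V) =
            (s, k + ((n' + 1 : ℕ) : ℤ), i - ((T.filter (· < n' + 1)).card : ℕ)) := by
          rw [e0]; push_cast
          rw [add_assoc, sub_sub]
        refine ⟨(p.append (SimpleGraph.Walk.cons (adj2 s (k + n') _) SimpleGraph.Walk.nil)).copy rfl ev, ?_⟩
        have : ∀ {x y y' : V} (q : G.Walk x y) (h : y = y'), wt (q.copy rfl h) = wt q := by
          intro x y y' q h
          unfold wt
          rw [SimpleGraph.Walk.darts_copy]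
        rw [this, wt_append, hp]
        have h3 := (hE (k + n')).2 (h1 n' hmem)
        have h4 : wt (SimpleGraph.Walk.cons (adj2 s (k + n') (i - ((T.filter (· < n')).card : ℕ)))
            SimpleGraph.Walk.nil) = 1 + max (-a (k + n')) 0 := by
          unfold wt
          simp [om2]
        rw [h4, ← h3, e0]
        push_cast
        rw [← add_assoc]
        ring
      · have e0 : (T.filter (· < n' + 1)).card = (T.filter (· < n')).card := by
          have : T.filter (· < n' + 1) = T.filter (· < n') := by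
            ext x
            simp only [Finset.mem_filter]
            constructor
            · rintro ⟨hx, hx'⟩
              rcases Nat.lt_succ_iff_lt_or_eq.1 hx' with h | h
              · exact ⟨hx, h⟩
              · exact absurd (h ▸ hx) hmem
            · rintro ⟨hx, hx'⟩
              exact ⟨hx, by omega⟩
          rw [this]
        have ev : ((s, k + n' + 1, i - ((T.filter (· < n')).card : ℕ)) : V) =
            (s, k + ((n' + 1 : ℕ) : ℤ), i - ((T.filter (· < n' + 1)).card : ℕ)) := by
          rw [e0]; push_cast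
          rw [add_assoc]
        refine ⟨(p.append (SimpleGraph.Walk.cons (adj1 s (k + n') _) SimpleGraph.Walk.nil)).copy rfl ev, ?_⟩
        have : ∀ {x y y' : V} (q : G.Walk x y) (h : y = y'), wt (q.copy rfl h) = wt q := by
          intro x y y' q h
          unfold wt
          rw [SimpleGraph.Walk.darts_copy]
        rw [this, wt_append, hp]
        have h3 := (hE (k + n')).1 (h2 n' (Finset.mem_range.2 (by omega)) hmem)
        have h4 : wt (SimpleGraph.Walk.cons (adj1 s (k + n') (i - ((T.filter (· < n')).card : ℕ)))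
            SimpleGraph.Walk.nil) = 1 + max (a (k + n')) 0 := by
          unfold wt
          simp [om1]
        rw [h4, ← h3, e0]
        push_cast
        rw [← add_assoc]
        ring
  have k1 := key n le_rfl
  have e1 : (T.filter (· < n)).card = m := by
    rw [← hc]
    congr 1
    rw [Finset.filter_eq_self]
    intro x hx
    exact Finset.mem_range.1 (hT hx)
  rw [e1] at k1
  obtain ⟨p, hp⟩ := k1
  refine ⟨p, ?_⟩
  rw [hp, pos_sub]
  have hs : √(1 - u ^ 2) ^ 2 + u ^ 2 = 1 := by
    rw [Real.sq_sqrt]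
    · ring
    · have := (sq_le_one_iff_abs_le_one u).2 hu1
      linarith
  have h5 := re_im_le ((k + n - k : ℤ) : ℝ) (((k + n - k : ℤ) : ℝ) / 2 + ((i - m - i : ℤ) : ℝ)) _ _ hs
  have h6 := abs_le.1 (hH (k + n))
  have h7 := abs_le.1 (hH k)
  have h8 := h6.2
  have h9 := h7.1
  push_cast at h5 h8 h9 ⊢
  nlinarith [h5, h8, h9]

end Pool.Agent.L7h49.WN
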